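import Pool.Agent.Lib.MP_23961f_co.AC.MainO

/-!
MP_23961f_co: the complement inequality from certificates for a graph and its complement.

`IsShift G G' z z'`: for an edge `zz'` of `G`, in `G'` the vertex `z` is joined to all neighbours of
`z` or `z'`, `z'` only to the common neighbours, the edge `zz'` stays, nothing else changes.
`First G L v w`: `w` is the first member of the list `L` which is not `v` and not adjacent to `v`.
`IsRound G G' L`: the members of `L` are pairwise adjacent; `G'` arises from `G` by joining every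
vertex `v` to the first member of `L` which is not `v` and not adjacent to `v`.
`Deg G a`: for some `S` with `a < |S|`, of any two non-adjacent vertices of `S` one has at least `a`
neighbours in `S`.
`Wac H k`: for some linear order of the vertices and some colouring (not necessarily proper) with
weights of sum at most `k`: for any colours `r`, `s` (`r = s` allowed) every non-empty set `U` of
vertices coloured `r` or `s` has a vertex `v` such that, with `t` the other colour and `B` the set of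
`t`-coloured neighbours of `v` in `U`, for each `b` in `B` at most (weight of `t`) `t`-coloured
vertices are neighbours of `b` before `b` or lie in `B`, not after `b`.
`Cert a G`: `Deg G a`; or `Wac` for the complement with `k ≤ n - 1 - a`; or `Cert a G'` after a shift;
or `Cert (a + 1) G'` after a round.
-/

set_option autoImplicit false

namespace Pool.Agent.Results.MP_23961f_co.CertificateSum

variable {n : ℕ}

/-- `G'` arises from `G` by the shift of `z'` to `z` along the edge `zz'`. -/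
def IsShift (G G' : SimpleGraph (Fin n)) (z z' : Fin n) : Prop :=
  G.Adj z z' ∧ G'.Adj z z' ∧
  (∀ w, w ≠ z → w ≠ z' → (G'.Adj z w ↔ G.Adj z w ∨ G.Adj z' w)) ∧
  (∀ w, w ≠ z → w ≠ z' → (G'.Adj z' w ↔ G.Adj z w ∧ G.Adj z' w)) ∧
  (∀ v w, v ≠ z → v ≠ z' → w ≠ z → w ≠ z' → (G'.Adj v w ↔ G.Adj v w))

/-- `w` is the first member of `L` which is not `v` and not adjacent to `v`. -/
def First (G : SimpleGraph (Fin n)) (L : List (Fin n)) (v w : Fin n) : Prop :=
  ∃ L₁ L₂, L = L₁ ++ w :: L₂ ∧ v ≠ w ∧ ¬ G.Adj v w ∧ ∀ k ∈ L₁, k = v ∨ G.Adj v k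

/-- The members of `L` are pairwise adjacent and `G'` arises from `G` by joining every vertex `v` to
the first member of `L` which is not `v` and not adjacent to `v`. -/
def IsRound (G G' : SimpleGraph (Fin n)) (L : List (Fin n)) : Prop :=
  (∀ v ∈ L, ∀ w ∈ L, v ≠ w → G.Adj v w) ∧
    ∀ v w, G'.Adj v w ↔ G.Adj v w ∨ First G L v w ∨ First G L w v

/-- For some `S` with `a < |S|`, of any two non-adjacent vertices of `S` one has at least `a`
neighbours in `S`. -/
def Deg (G : SimpleGraph (Fin n)) (a : ℕ) : Prop :=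
  ∃ S : Finset (Fin n), a < S.card ∧ ∀ v ∈ S, ∀ w ∈ S, v ≠ w → ¬ G.Adj v w →
    a ≤ Set.ncard {x | x ∈ S ∧ G.Adj v x} ∨ a ≤ Set.ncard {x | x ∈ S ∧ G.Adj w x}

/-- There are a linear order `o` and a colouring `c` (not necessarily proper) with weights `d` of sum
at most `k` such that for any colours `r`, `s` every non-empty set `U` of vertices coloured `r` or `s`
has a vertex `v` such that, `t` being the other colour, for every `t`-coloured neighbour `b` of `v` in
`U` at most `d t` vertices of colour `t` are neighbours of `b` before `b` or neighbours of `v` in `U`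
not after `b`. -/
def Wac (H : SimpleGraph (Fin n)) (k : ℕ) : Prop :=
  ∃ (m : ℕ) (c : Fin n → Fin m) (d : Fin m → ℕ) (o : Fin n → ℕ), Function.Injective o ∧
    ∑ r, d r ≤ k ∧
    ∀ r s, ∀ U : Finset (Fin n), U.Nonempty → (∀ v ∈ U, c v = r ∨ c v = s) →
      ∃ v ∈ U, ∃ t, ((c v = r ∧ t = s) ∨ (c v = s ∧ t = r)) ∧
        ∀ b ∈ U, H.Adj v b → c b = t →
          Set.ncard {x | c x = t ∧ ((H.Adj x b ∧ o x < o b) ∨
            (x ∈ U ∧ H.Adj v x ∧ o x ≤ o b))} ≤ d t

/-- Certificates: degrees, a weighted colouring of the complement, shifts, rounds. -/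
inductive Cert : ℕ → SimpleGraph (Fin n) → Prop
  | deg (a : ℕ) (G : SimpleGraph (Fin n)) (h : Deg G a) : Cert a G
  | col (a : ℕ) (G : SimpleGraph (Fin n)) (k : ℕ) (h : Wac Gᶜ k) (hk : a + 1 + k ≤ n) : Cert a G
  | shift (a : ℕ) (G G' : SimpleGraph (Fin n)) (z z' : Fin n) (h : IsShift G G' z z')
      (h' : Cert a G') : Cert a G
  | round (a : ℕ) (G G' : SimpleGraph (Fin n)) (L : List (Fin n)) (h : IsRound G G' L)
      (h' : Cert (a + 1) G') : Cert a G

theorem eq_esh {G G' : SimpleGraph (Fin n)} {z z' : Fin n} (h : IsShift G G' z z') :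
    G' = Lib.MP_23961f_co.K.esh G z z' := by
  obtain ⟨h1, h2, h3, h4, h5⟩ := h
  have hne : z ≠ z' := h1.ne
  ext v w
  show G'.Adj v w ↔ (v ≠ w ∧
    ((v = z ∧ w = z') ∨ (v = z' ∧ w = z) ∨
      (v = z ∧ w ≠ z' ∧ (G.Adj z w ∨ G.Adj z' w)) ∨
      (w = z ∧ v ≠ z' ∧ (G.Adj z v ∨ G.Adj z' v)) ∨
      (v = z' ∧ w ≠ z ∧ G.Adj z w ∧ G.Adj z' w) ∨
      (w = z' ∧ v ≠ z ∧ G.Adj z v ∧ G.Adj z' v) ∨
      (v ≠ z ∧ v ≠ z' ∧ w ≠ z ∧ w ≠ z' ∧ G.Adj v w)))
  by_cases hvz : v = z
  · subst hvz
    by_cases hwz : w = v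
    · subst hwz
      simp
    · by_cases hwz' : w = z'
      · subst hwz'
        simp [h2, hne]
      · rw [h3 w hwz hwz']
        have := Ne.symm hwz
        tauto
  · by_cases hvz' : v = z'
    · subst hvz'
      by_cases hwz : w = z
      · subst hwz
        simp [h2.symm, hne.symm]
      · by_cases hwz' : w = v
        · subst hwz'
          simp
        · rw [h4 w hwz hwz']
          have := Ne.symm hwz'
          tauto
    · by_cases hwz : w = z
      · subst hwz
        rw [G'.adj_comm, h3 v hvz hvz']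
        tauto
      · by_cases hwz' : w = z'
        · subst hwz'
          rw [G'.adj_comm, h4 v hvz hvz']
          tauto
        · rw [h5 v w hvz hvz' hwz hwz']
          have h6 : G.Adj v w → v ≠ w := fun h => h.ne
          tauto

theorem fst_iff {G : SimpleGraph (Fin n)} {L : List (Fin n)} {v w : Fin n} :
    First G L v w ↔ Lib.MP_23961f_co.K.fst Gᶜ L v = some w := by
  unfold First
  rw [Lib.MP_23961f_co.AC.fst_eq_some_iff]
  constructor
  · rintro ⟨L₁, L₂, h1, h2, h3, h4⟩
    refine ⟨(SimpleGraph.compl_adj _ _ _).2 ⟨h2, h3⟩, L₁, L₂, h1, ?_⟩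
    intro k hk h5
    rw [SimpleGraph.compl_adj] at h5
    rcases h4 k hk with h8 | h8
    · exact h5.1 h8.symm
    · exact h5.2 h8
  · rintro ⟨h1, L₁, L₂, h2, h3⟩
    have h4 := (SimpleGraph.compl_adj _ _ _).1 h1
    refine ⟨L₁, L₂, h2, h4.1, h4.2, fun k hk => ?_⟩
    by_contra h5
    push Not at h5
    exact h3 k hk ((SimpleGraph.compl_adj _ _ _).2 ⟨Ne.symm h5.1, h5.2⟩)

theorem eq_round {G G' : SimpleGraph (Fin n)} {L : List (Fin n)} (h : IsRound G G' L) :
    G' = (Lib.MP_23961f_co.K.roundL Gᶜ L)ᶜ := by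
  ext v w
  rw [h.2 v w, SimpleGraph.compl_adj]
  show _ ↔ v ≠ w ∧ ¬ (Gᶜ.Adj v w ∧ Lib.MP_23961f_co.K.fst Gᶜ L v ≠ some w ∧
    Lib.MP_23961f_co.K.fst Gᶜ L w ≠ some v)
  rw [SimpleGraph.compl_adj]
  have e1 := fst_iff (G := G) (L := L) (v := v) (w := w)
  have e2 := fst_iff (G := G) (L := L) (v := w) (w := v)
  have h1 : First G L v w → v ≠ w := fun ⟨_, _, _, h2, _⟩ => h2
  have h2 : First G L w v → w ≠ v := fun ⟨_, _, _, h2, _⟩ => h2
  have h3 : G.Adj v w → v ≠ w := fun h => h.ne
  have h4 : w ≠ v → v ≠ w := Ne.symm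
  tauto

theorem cert_lib {G : SimpleGraph (Fin n)} {a : ℕ} (h : Cert a G) :
    Lib.MP_23961f_co.AC.CertO a G := by
  induction h with
  | deg a G h => exact Lib.MP_23961f_co.AC.CertO.deg a G h
  | col a G k h hk =>
    obtain ⟨m, c, d, o, ho, hd, h1⟩ := h
    refine Lib.MP_23961f_co.AC.CertO.col a G c d o ho h1 ?_
    rw [Fintype.card_fin]
    omega
  | shift a G G' z z' h h' ih =>
    rw [eq_esh h] at ih
    exact Lib.MP_23961f_co.AC.CertO.shift a G z z' h.1 ih
  | round a G G' L h h' ih =>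
    rw [eq_round h] at ih
    refine Lib.MP_23961f_co.AC.CertO.round a G L ?_ ih
    refine List.pairwise_of_forall_mem_list (r := fun a b => ¬ Gᶜ.Adj a b) ?_
    intro v hv w hw hvw
    have h1 := (SimpleGraph.compl_adj _ _ _).1 hvw
    exact h1.2 (h.1 v hv w hw h1.1)

/-- The complement inequality from certificates of both graphs. -/
theorem result {n : ℕ} (G : SimpleGraph (Fin n)) (a b : ℕ) (ha : Cert a G) (hb : Cert b Gᶜ) :
    ∃ (A B : Matrix (Fin n) (Fin n) ℝ),
      A.PosSemidef ∧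
      (∀ i j, i ≠ j → (A i j ≠ 0 ↔ G.Adj i j)) ∧
      (∀ X : Matrix (Fin n) (Fin n) ℝ, X.IsSymm → (∀ i, X i i = 0) →
          (∀ i j, G.Adj i j → X i j = 0) → A * X = 0 → X = 0) ∧
      B.PosSemidef ∧
      (∀ i j, i ≠ j → (B i j ≠ 0 ↔ Gᶜ.Adj i j)) ∧
      (∀ X : Matrix (Fin n) (Fin n) ℝ, X.IsSymm → (∀ i, X i i = 0) →
          (∀ i j, Gᶜ.Adj i j → X i j = 0) → B * X = 0 → X = 0) ∧
      b + max a (min 3 (n - 2 - b)) ≤ (n - A.rank) + (n - B.rank) :=
  Lib.MP_23961f_co.AC.gcc_of_certO G a b (cert_lib ha) (cert_lib hb)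

end Pool.Agent.Results.MP_23961f_co.CertificateSum
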