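import Pool.Agent.Lib.MP_23961f_co.DP.Main

/-!
MP_23961f_co: the complement inequality for large graphs without sparse or dense pairs.

`edges G X Y`: the number of edges between the disjoint vertex sets `X` and `Y`.
-/

set_option autoImplicit false

namespace Pool.Agent.Results.MP_23961f_co.DensePairs

open Pool.Agent.Lib.MP_23961f_co.K Pool.Agent.Lib.MP_23961f_co.DP

/-- the number of pairs `(x, y)`, `x ∈ X`, `y ∈ Y`, joined by an edge of `G` -/
noncomputable def edges {n : ℕ} (G : SimpleGraph (Fin n)) (X Y : Finset (Fin n)) : ℕ :=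
  Set.ncard {p : Fin n × Fin n | p.1 ∈ X ∧ p.2 ∈ Y ∧ G.Adj p.1 p.2}

theorem edges_eq {n : ℕ} (G : SimpleGraph (Fin n)) (X Y : Finset (Fin n)) :
    edges G X Y = ed G X Y := by
  classical
  unfold edges ed
  rw [← Set.ncard_coe_finset]
  congr 1
  ext p
  simp [and_assoc]

theorem matrices {n : ℕ} {G : SimpleGraph (Fin n)} {a b : ℕ} {x : ℝ} (ha : Nul G a)
    (hb : Nul Gᶜ b) (hx : x ≤ (a : ℝ) + (b : ℝ)) :
    ∃ (A B : Matrix (Fin n) (Fin n) ℝ),
      A.PosSemidef ∧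
      (∀ i j, i ≠ j → (A i j ≠ 0 ↔ G.Adj i j)) ∧
      (∀ X : Matrix (Fin n) (Fin n) ℝ, X.IsSymm → (∀ i, X i i = 0) →
          (∀ i j, G.Adj i j → X i j = 0) → A * X = 0 → X = 0) ∧
      B.PosSemidef ∧
      (∀ i j, i ≠ j → (B i j ≠ 0 ↔ Gᶜ.Adj i j)) ∧
      (∀ X : Matrix (Fin n) (Fin n) ℝ, X.IsSymm → (∀ i, X i i = 0) →
          (∀ i j, Gᶜ.Adj i j → X i j = 0) → B * X = 0 → X = 0) ∧
      x ≤ ((n : ℝ) - A.rank) + ((n : ℝ) - B.rank) := by
  obtain ⟨A, hA1, hA2, hA3, hA4⟩ := ha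
  obtain ⟨B, hB1, hB2, hB3, hB4⟩ := hb
  refine ⟨A, B, hA1, hA2, hA3, hB1, hB2, hB3, hx.trans ?_⟩
  rw [Fintype.card_fin] at hA4 hB4
  have hA5 : A.rank ≤ n := by
    have := A.rank_le_card_width
    rwa [Fintype.card_fin] at this
  have hB5 : B.rank ≤ n := by
    have := B.rank_le_card_width
    rwa [Fintype.card_fin] at this
  have h1 : (a : ℝ) + (A.rank : ℝ) ≤ (n : ℝ) := by
    have : a + A.rank ≤ n := by omega
    exact_mod_cast this
  have h2 : (b : ℝ) + (B.rank : ℝ) ≤ (n : ℝ) := by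
    have : b + B.rank ≤ n := by omega
    exact_mod_cast this
  linarith

/-- For every `δ > 0` there are `c, η > 0` such that for all large `n` and all graphs `G` on `n`
vertices in which any two disjoint sets of at least `η n` vertices have edge density between `δ`
and `1 - δ` the nullities sum to at least `(1 + c) n`. -/
theorem result :
    ∀ δ : ℝ, 0 < δ → ∃ (c η : ℝ) (n₀ : ℕ), 0 < c ∧ 0 < η ∧ ∀ n : ℕ, n₀ ≤ n →
      ∀ G : SimpleGraph (Fin n),
        (∀ X Y : Finset (Fin n), Disjoint X Y → η * n ≤ X.card → η * n ≤ Y.card →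
          δ * (X.card * Y.card) ≤ edges G X Y ∧ edges G X Y ≤ (1 - δ) * (X.card * Y.card)) →
        ∃ (A B : Matrix (Fin n) (Fin n) ℝ),
          A.PosSemidef ∧
          (∀ i j, i ≠ j → (A i j ≠ 0 ↔ G.Adj i j)) ∧
          (∀ X : Matrix (Fin n) (Fin n) ℝ, X.IsSymm → (∀ i, X i i = 0) →
              (∀ i j, G.Adj i j → X i j = 0) → A * X = 0 → X = 0) ∧
          B.PosSemidef ∧
          (∀ i j, i ≠ j → (B i j ≠ 0 ↔ Gᶜ.Adj i j)) ∧
          (∀ X : Matrix (Fin n) (Fin n) ℝ, X.IsSymm → (∀ i, X i i = 0) →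
              (∀ i j, Gᶜ.Adj i j → X i j = 0) → B * X = 0 → X = 0) ∧
          (1 + c) * n ≤ ((n : ℝ) - A.rank) + ((n : ℝ) - B.rank) := by
  intro δ hδ
  have hδ' : 0 < min δ 1 := lt_min hδ one_pos
  obtain ⟨c, hc, η, hη, n₀, H⟩ := sum_of_noPairs hδ' (min_le_right _ _)
  refine ⟨c, η, n₀, hc, hη, fun n hn G hG => ?_⟩
  have hG' : NoSparse G η (min δ 1) := by
    intro X Y hXY hX hY
    rw [Fintype.card_fin] at hX hY
    have h1 := (hG X Y hXY hX hY).1
    rw [edges_eq] at h1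
    refine le_trans (mul_le_mul_of_nonneg_right (min_le_left _ _) (by positivity)) h1
  have hG'' : NoSparse Gᶜ η (min δ 1) := by
    intro X Y hXY hX hY
    rw [Fintype.card_fin] at hX hY
    have h1 := (hG X Y hXY hX hY).2
    rw [edges_eq] at h1
    have h2 : (ed Gᶜ X Y : ℝ) + (ed G X Y : ℝ) = (X.card : ℝ) * (Y.card : ℝ) := by
      exact_mod_cast ed_compl G hXY
    have h3 : min δ 1 * ((X.card : ℝ) * (Y.card : ℝ)) ≤ δ * ((X.card : ℝ) * (Y.card : ℝ)) :=
      mul_le_mul_of_nonneg_right (min_le_left _ _) (by positivity)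
    linarith
  obtain ⟨a, b, ha, hb, hab⟩ := H (Fin n) G (by rwa [Fintype.card_fin]) hG' hG''
  rw [Fintype.card_fin] at hab
  exact matrices ha hb hab

end Pool.Agent.Results.MP_23961f_co.DensePairs
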