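import Pool.Agent.Lib.MP_23961f_co.AC.Star

set_option autoImplicit false

namespace Pool.Agent.Results.MP_23961f_co.UniversalDeficit

/-- For every graph `G` on `n` vertices there are positive semidefinite matrices `A`, `B`
for `G` and its complement, each with the off-diagonal nonzero pattern of its graph and the Strong
Arnold Property, with `n ≤ a + b + max 2 (min a b)` for their nullities `a`, `b`. -/
theorem result :
    ∀ (n : ℕ) (G : SimpleGraph (Fin n)),
      ∃ (A B : Matrix (Fin n) (Fin n) ℝ),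
        A.PosSemidef ∧
        (∀ i j, i ≠ j → (A i j ≠ 0 ↔ G.Adj i j)) ∧
        (∀ X : Matrix (Fin n) (Fin n) ℝ, X.IsSymm → (∀ i, X i i = 0) →
            (∀ i j, G.Adj i j → X i j = 0) → A * X = 0 → X = 0) ∧
        B.PosSemidef ∧
        (∀ i j, i ≠ j → (B i j ≠ 0 ↔ Gᶜ.Adj i j)) ∧
        (∀ X : Matrix (Fin n) (Fin n) ℝ, X.IsSymm → (∀ i, X i i = 0) →
            (∀ i j, Gᶜ.Adj i j → X i j = 0) → B * X = 0 → X = 0) ∧
        n ≤ (n - A.rank) + (n - B.rank) + max 2 (min (n - A.rank) (n - B.rank)) := by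
  intro n G
  rcases Nat.eq_zero_or_pos n with h0 | hpos
  · subst h0
    refine ⟨0, 0, Matrix.PosSemidef.zero, fun i => i.elim0, ?_, Matrix.PosSemidef.zero,
      fun i => i.elim0, ?_, Nat.zero_le _⟩
    · intro X _ _ _ _
      ext i
      exact i.elim0
    · intro X _ _ _ _
      ext i
      exact i.elim0
  · have : Nonempty (Fin n) := ⟨⟨0, hpos⟩⟩
    obtain ⟨a, b, ⟨A, hA1, hA2, hA3, hA4⟩, ⟨B, hB1, hB2, hB3, hB4⟩, hab⟩ :=
      Pool.Agent.Lib.MP_23961f_co.AC.exists_deficit G
    rw [Fintype.card_fin] at hab hA4 hB4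
    exact ⟨A, B, hA1, hA2, hA3, hB1, hB2, hB3, by omega⟩

end Pool.Agent.Results.MP_23961f_co.UniversalDeficit
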