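import Pool.Agent.Lib.MP_23961f_co.WC.Main

set_option autoImplicit false

open Pool.Agent.Lib.MP_23961f_co

namespace Pool.Agent.Results.MP_23961f_co.WeaklyChordal

/-- Let `G` be a graph on `n` vertices and `T` a set of vertices which contains a vertex of every
induced cycle with at least 5 vertices of `G` and of the complement of `G`. Then there are positive
semidefinite matrices `A`, `B` for `G` and its complement, each with the off-diagonal nonzero pattern
of its graph and the Strong Arnold Property, whose nullities sum to at least `n - 2 - |T|`. For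
`T = ∅` this is the complement inequality for all weakly chordal graphs. -/
theorem result :
    ∀ (n : ℕ) (G : SimpleGraph (Fin n)) (T : Finset (Fin n)),
      (∀ m : ℕ, 5 ≤ m → ∀ f : SimpleGraph.cycleGraph m ↪g G, ∃ i, f i ∈ T) →
      (∀ m : ℕ, 5 ≤ m → ∀ f : SimpleGraph.cycleGraph m ↪g Gᶜ, ∃ i, f i ∈ T) →
      ∃ (A B : Matrix (Fin n) (Fin n) ℝ),
        A.PosSemidef ∧
        (∀ i j, i ≠ j → (A i j ≠ 0 ↔ G.Adj i j)) ∧
        (∀ X : Matrix (Fin n) (Fin n) ℝ, X.IsSymm → (∀ i, X i i = 0) →
            (∀ i j, G.Adj i j → X i j = 0) → A * X = 0 → X = 0) ∧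
        B.PosSemidef ∧
        (∀ i j, i ≠ j → (B i j ≠ 0 ↔ Gᶜ.Adj i j)) ∧
        (∀ X : Matrix (Fin n) (Fin n) ℝ, X.IsSymm → (∀ i, X i i = 0) →
            (∀ i j, Gᶜ.Adj i j → X i j = 0) → B * X = 0 → X = 0) ∧
        (n - A.rank) + (n - B.rank) + 2 + T.card ≥ n :=
  fun _ G T h1 h2 => WC.gcc_of_hitting G T h1 h2

end Pool.Agent.Results.MP_23961f_co.WeaklyChordal
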